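import Pool.Agent.GTO.StmtsB3
import Pool.Agent.Helper43_OM.Pub

/-! Squad OMF (MP_7e2fab_co): omissible points of sets with few ordinary lines. Definitions.
`V`, `dt`, `ip`, `cr`, `cub`, `quad`, `NoLine`, `PI`, `Spn`, `ln`, `lns`, `NGood`, `Tri`, `IsRun`, `Zc`
are those of `Pool.Agent.GTO`. -/

namespace Pool.Agent.OMF

open Finset Pool.Agent.GTO
open scoped Classical

/-- no line is contained in the conic -/
def NoLineQ (e : Fin 6 → ℝ) : Prop :=
  ∀ u v : V, cr u v ≠ 0 → ∃ s t : ℝ, quad e (s • u + t • v) ≠ 0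

/-- the gradient of `quad e`: `quad e (x + v) = quad e x + ip (tg e x) v + quad e v` -/
def tg (e : Fin 6 → ℝ) (x : V) : V :=
  ![2 * e 0 * x 0 + e 1 * x 1 + e 2 * x 2, e 1 * x 0 + 2 * e 3 * x 1 + e 4 * x 2,
    e 2 * x 0 + e 4 * x 1 + 2 * e 5 * x 2]

variable {ι : Type} [Fintype ι]

/-- number of ordinary lines (lines with exactly two points) -/
noncomputable def T2 (a : ι → V) : ℕ := ((lns a).filter fun ℓ => ℓ.card = 2).card

/-- there is a run of `N` columns along `x` which starts at the line `ℓ` -/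
def Sees (a : ι → V) (N : ℕ) (x : ι) (ℓ : Finset ι) : Prop :=
  ∃ d : Dat ι, NGood a N d ∧ d.u = x ∧ ln a d.u d.v = ℓ

/-- fully good lines -/
noncomputable def FG (a : ι → V) (N : ℕ) : Finset (Finset ι) :=
  (lns a).filter fun ℓ => ∀ x ∈ ℓ, Sees a N x ℓ

/-- the points which `x` does not see through a fully good line -/
noncomputable def Miss (a : ι → V) (N : ℕ) (x : ι) : Finset ι :=
  univ.filter fun y => y ≠ x ∧ ln a x y ∉ FG a N

/-- the points on lines with at least `k` points -/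
noncomputable def UU (a : ι → V) (k : ℕ) : Finset ι :=
  univ.filter fun i => ∃ ℓ ∈ lns a, k ≤ ℓ.card ∧ i ∈ ℓ

/-- the points of the configuration on the conic -/
noncomputable def Zq (a : ι → V) (e : Fin 6 → ℝ) : Finset ι :=
  univ.filter fun i => quad e (a i) = 0

/-- the rich curves: lines, conics without line, cubics without line, with at least `k` points -/
noncomputable def RC (a : ι → V) (k : ℕ) : Finset (Finset ι) :=
  univ.filter fun C => k ≤ C.card ∧ (C ∈ lns a ∨ (∃ e, NoLineQ e ∧ C = Zq a e) ∨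
    ∃ c, NoLine c ∧ C = Zc a c)

/-- the points on two different rich curves -/
noncomputable def EX (a : ι → V) (k : ℕ) : Finset ι :=
  univ.filter fun i => ∃ C ∈ RC a k, ∃ C' ∈ RC a k, C ≠ C' ∧ i ∈ C ∧ i ∈ C'

/-- half of the sign information of a good datum with walls `O, v, w` and third point `G` on `v w` -/
def SH (a : ι → V) (O G v w : ι) : Prop :=
  ∃ ε : ℝ, ∀ l, l ≠ O → l ≠ v → l ≠ w → l ≠ G → l ∉ ln a O v →
    0 < ε * (dt (a l) (a v) (a w) * dt (a O) (a v) (a l))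

/-- a run with its sign information -/
def Run2 (a : ι → V) (N : ℕ) (O Gm G1 G2 : ι) (A B : ℕ → ι) : Prop :=
  IsRun a N O Gm G1 G2 A B ∧ ∀ i ≤ N, SH a O G1 (A i) (B (i + 1)) ∧ SH a O G1 (B (i + 1)) (A i) ∧
    SH a O Gm (A (i + 1)) (B i) ∧ SH a O Gm (B i) (A (i + 1))

/-- `g` is a neighbour of `x` on the conic: all other points are on one side of `g`, seen from `x` -/
def Ext (a : ι → V) (e : Fin 6 → ℝ) (x g : ι) : Prop :=
  g ∈ Zq a e ∧ g ≠ x ∧ ∃ ε : ℝ, ∀ P ∈ Zq a e, P ≠ x → P ≠ g →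
    0 < ε * (dt (a x) (a g) (a P) * ip (tg e (a x)) (a g) * ip (tg e (a x)) (a P))

/-- `z` is on a rich line which passes through the point `T_x ∩ g g'`, `g, g'` the neighbours of
`x` on the conic -/
def Cls (a : ι → V) (k : ℕ) (e : Fin 6 → ℝ) (x z : ι) : Prop :=
  ∃ ℓ ∈ lns a, k ≤ ℓ.card ∧ z ∈ ℓ ∧ ∃ g g', g ≠ g' ∧ Ext a e x g ∧ Ext a e x g' ∧
    ∀ i ∈ ℓ, ∀ j ∈ ℓ, dt (a i) (a j) (cr (tg e (a x)) (cr (a g) (a g'))) = 0

/-- type (I): the three points are on a rich cubic without line -/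
def TyI (a : ι → V) (k : ℕ) (x y z : ι) : Prop :=
  ∃ c, NoLine c ∧ k ≤ (Zc a c).card ∧ x ∈ Zc a c ∧ y ∈ Zc a c ∧ z ∈ Zc a c

/-- type (IIa): `y, z` are on a rich conic without line, `x` is not -/
def TyA (a : ι → V) (k : ℕ) (x y z : ι) : Prop :=
  ∃ e, NoLineQ e ∧ k ≤ (Zq a e).card ∧ x ∉ Zq a e ∧ y ∈ Zq a e ∧ z ∈ Zq a e

/-- type (IIb): `x, y` are on a rich conic without line, `z` is on a rich line -/
def TyB (a : ι → V) (k : ℕ) (x y z : ι) : Prop :=
  ∃ e, NoLineQ e ∧ k ≤ (Zq a e).card ∧ x ∈ Zq a e ∧ y ∈ Zq a e ∧ z ∉ Zq a e ∧ Cls a k e x z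

/-- omissible points: every line through `i` has at least three points -/
def Om (a : ι → V) (i : ι) : Prop := ∀ j, j ≠ i → 3 ≤ (ln a i j).card

/-- homogeneous coordinates of a point of the plane -/
def hp (p : ℝ × ℝ) : V := ![p.1, p.2, 1]

/-- the family of the points of a finite set -/
def fam (X : Finset (ℝ × ℝ)) : {p // p ∈ X} → V := fun p => hp p.1

end Pool.Agent.OMF
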