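import Pool.Agent.OMF.Defs

/-! Squad OMF (MP_7e2fab_co): statements. Every statement is a row of the table `omf`; the docstring
is its proof. `BAS, MEL, TRI, GDW, NBR, VTX, UNQ, COL, CNN, LVX, RUN, LNF, CUB, ZZZ, BZ6` are the
statements of `Pool/Agent/GTO` (all proved); take them as hypotheses (`BasStmt`, ..). -/

namespace Pool.Agent.OMF

open Finset Pool.Agent.GTO
open scoped Classical

/-- CNT (defects and ordinary lines). Uses BAS MEL TRI GDW NBR VTX UNQ. Proof. COPY the proof of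
`H44.ebdS` in `Pool/Agent/Helper44_GTO/EBD.lean`; it proves (before its last step), in `ℤ`, with
`bad` = lines with `card ≠ 3`:
`EE a ≤ ∑ ℓ ∈ bad, (24 - 8 m) - 24 + ∑ ℓ ∈ bad, 4 m` and
`BF a ≤ ∑ ℓ ∈ bad, (24 - 8 m) - 24 + 3 * ∑ ℓ ∈ bad, 4 m`, `m = ℓ.card`. By MEL (all terms of the left
side are `≥ 0`) `∑ ℓ ∈ bad, (6 - 2 m) ≥ 6`, i.e. `∑ over m ≥ 4 of (m - 3) ≤ T2 a - 3`. Now
`24 - 4 m` is `16` for `m = 2` and `≤ 8 (m - 3)` for `m ≥ 4`; `24 + 4 m` is `32` for `m = 2` and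
`≤ 40 (m - 3)` for `m ≥ 4`; `m ≤ 4 (m - 3)` for `m ≥ 4`. -/
def CntStmt : Prop := ∀ (ι : Type) [Fintype ι] (a : ι → V), PI a → Spn a →
  EE a ≤ 24 * T2 a ∧ BF a ≤ 72 * T2 a ∧
  ∑ ℓ ∈ (lns a).filter (fun ℓ => 4 ≤ ℓ.card), ℓ.card ≤ 4 * T2 a ∧ 3 ≤ T2 a

/-- BPR (bad pairs). Uses BAS CNN LVX. Proof (as in `Pool/Agent/Helper38_GTO/ST1.lean`, `st1`).
For a point `p` let `nb p` be the number of good data with `d.u = p` which are not `NGood a N`, and
`bf p` the number of topes `σ` with `flp σ p` a tope and `σ` not good. LVX (1):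
`#{NGood data with d.u = p} + nb p + bf p = 4 * rr a p`; `rr a p` is the number of the lines through
`p`; by LVX (2) each line `ℓ ∋ p` is `ln a d.u d.v` for at most 4 good data with `d.u = p`. So
`4 * #{ℓ ∋ p : ¬ Sees a N p ℓ} ≤ nb p + bf p`. Sum over `p`: `∑ nb p ≤ 6 * N * EE a` (CNN),
`∑ bf p = BF a`; and `∑ p, #{ℓ ∋ p : ¬ Sees} = ∑ ℓ, #{x ∈ ℓ : ¬ Sees a N x ℓ}`. -/
def BprStmt : Prop := ∀ (ι : Type) [Fintype ι] (a : ι → V), PI a → 2 ≤ Fintype.card ι → ∀ N : ℕ,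
  4 * ∑ ℓ ∈ lns a, (ℓ.filter fun x => ¬ Sees a N x ℓ).card ≤ 6 * N * EE a + BF a

/-- MSB (sum of the sizes of `Miss`). Uses BAS GDW CNT BPR. Proof. `Miss a N x` is the disjoint union
of the sets `ℓ.erase x` over the lines `ℓ ∋ x` which are not in `FG a N`; so the left side is
`∑ over ℓ ∈ lns a \ FG a N of #(ℓ \ UU a k) * (ℓ.card - 1)`. If `k ≤ ℓ.card` then `ℓ ⊆ UU a k` and the
term is 0. Otherwise the term is at most `m (m - 1)`, `m = ℓ.card`, `m ≤ k - 1 ≤ N`. (i) `m = 3`: 6;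
the line is not fully good, so it contains an `x` with `¬ Sees a N x ℓ`: by BPR, CNT there are at
most `(6 N * 24 T2 + 72 T2) / 4 = (36 N + 18) T2` such lines. (ii) `m = 2`: `2 * T2 a` in all.
(iii) `m ≥ 4`: `m (m - 1) ≤ N * m`, in all `≤ N * 4 T2` (CNT). Sum:
`(216 N + 108 + 2 + 4 N) T2 ≤ 330 N T2`. (GDW is not needed if one counts this way.) -/
def MsbStmt : Prop := ∀ (ι : Type) [Fintype ι] (a : ι → V), PI a → Spn a → ∀ N k : ℕ, 1 ≤ N →
  k ≤ N + 1 → ∑ x ∈ univ \ UU a k, (Miss a N x).card ≤ 330 * N * T2 a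

/-- RN2 (a run with signs). Uses BAS GDW COL RUN. Proof. `d` is `NGood a N`: `f 0 = d`,
`Col a (f i) (f (i + 1))` for `i < N`. RUN gives `Gm, G1, G2` and `IsRun a (N - 1) ..` with
`A i = (f i).v`, `B i = (f i).w'`. By COL (`(f (i+1)).v = (f i).v'`, `(f (i+1)).w' = (f i).w`,
`u`, `u'` constant) `f i = (O, A i, B (i+1); G1, A (i+1), B i)` for `i < N`: the third point `(f i).u'`
of the line of `A i` and `B (i+1)` (GDW) is `G1` because `IsRun` says that this line is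
`{G1, A i, B (i+1)}`. `Col a (f i) (f (i+1))` gives a good `fm` with `Step a (rot (f i)) fm`, i.e.
`fm = (O, A (i+1), B i; *, A i, B (i+1))` and `* = Gm` in the same way. SIGNS: let `d` be good data
`(u, v, w; u', v', w')`, `l ≠ u, v, w, u'`. If `l ∉ ln a u v` then `dt (b l) (b v) (b w) > 0` and
`dt (b u) (b v) (b l) > 0` (`b = bv a d.s`; nonnegative by `Good`, and nonzero), the product is
`sg (d.s w) * sg (d.s u) * (dt (a l) (a v) (a w) * dt (a u) (a v) (a l))` (the squares of `sg` are 1):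
this is `SH a u u' v w`. If `l ∉ ln a u w`, then in the same way with `dt (b u) (b l) (b w) > 0`:
`SH a u u' w v`. -/
def Rn2Stmt : Prop := ∀ (ι : Type) [Fintype ι] (a : ι → V), PI a → ∀ (N : ℕ) (x : ι)
  (ℓ : Finset ι), 3 ≤ N → 2 * N + 5 < Fintype.card ι → Sees a N x ℓ →
  ∃ (Gm G1 G2 : ι) (A B : ℕ → ι), Run2 a (N - 1) x Gm G1 G2 A B ∧ ℓ = {x, A 0, B 0}

/-- PAR (parametrisation of a conic seen from its point `x`). Proof. `β0 = ip (tg e x) P0`, `v0 = P0`.
`quad e (s • x + t • P0) = s t β0` (expand), so `β0 ≠ 0` (`NoLineQ`). Let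
`B = cr (tg e x) (tg e P0)`; `ip (tg e x) B = 0 = ip (tg e P0) B`. `dt x P0 B ≠ 0`: `cr x P0 ≠ 0`, so
otherwise `B = α • x + γ • P0`, and `0 = ip (tg e x) B = γ β0`, `0 = ip (tg e P0) B = α β0` give
`B = 0`, so `tg e x`, `tg e P0` are parallel; but `ip (tg e x) x = 2 quad e x = 0`,
`ip (tg e x) P0 = β0 = ip (tg e P0) x ≠ 0`, `ip (tg e P0) P0 = 0`. `b = quad e B ≠ 0`: otherwise
`quad e (s • B + t • x) = 0` for all `s, t`. A zero `P` of `quad e`, `P = s • P0 + t • B + u • x`, has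
`0 = t² b + s u β0`; if `s = 0` then `t = 0` and `P` is parallel to `x`. So `s ≠ 0`, `h = t / s`,
`u / s = κ h²` with `κ = - b / β0`. -/
def ParStmt : Prop := ∀ (e : Fin 6 → ℝ) (x P0 : V), NoLineQ e → quad e x = 0 → quad e P0 = 0 →
  cr x P0 ≠ 0 → ∃ (v0 B : V) (κ : ℝ), κ ≠ 0 ∧ dt x v0 B ≠ 0 ∧ ip (tg e x) v0 ≠ 0 ∧
    ip (tg e x) B = 0 ∧ ip (tg e x) x = 0 ∧ ∀ P : V, quad e P = 0 → cr x P ≠ 0 →
      ∃ s h : ℝ, s ≠ 0 ∧ P = s • (v0 + h • B + (κ * h ^ 2) • x)

/-- EX1 (neighbours on a conic). Uses BAS PAR LNQ. `O, G, v, v', p` are on the conic, `w, w'` are not.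
Proof. Take PAR for `x = a O` and `P0 = a G`. For `P` on the conic, `P ≠ O`, write
`a P = s_P • (v0 + h_P • B + κ h_P² • a O)`, `s_P ≠ 0`; different points have different `h`. With
`δ = dt (a O) v0 B` and `β = ip (tg e (a O)) v0`: `dt (a O) (a P) (a Q) = s_P s_Q (h_Q - h_P) δ`,
`ip (tg e (a O)) (a P) = s_P β`,
`dt (a P) (a Q) (a R) = s_P s_Q s_R κ δ (h_Q - h_P) (h_R - h_P) (h_R - h_Q)`. As `G` is on the line of
`v` and `w`, `a w = α • a v + γ • a G` with `γ ≠ 0` (`v ≠ w`), so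
`dt (a l) (a v) (a w) = γ dt (a l) (a v) (a G)`. Let `l` be on the conic, `l ≠ O, G, v`. Then `l ≠ w`,
and `l ∉ ln a O v` (a line has at most two points on the conic, LNQ). `SH a O G v w` gives
`0 < ε * (dt (a l) (a v) (a w) * dt (a O) (a v) (a l))`, and the bracket is
`s_l² (h_l - h_v)² * (h_l - h_G) * const`, `const ≠ 0` independent of `l`: so `h_l - h_G` has the same sign
for all `l ≠ O, G, v`; with `v', w'` in place of `v, w` it has the same sign for all `l ≠ O, G, v'`;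
`p` shows that the two signs are equal. Finally
`dt (a O) (a G) (a P) * ip (tg e (a O)) (a G) * ip (tg e (a O)) (a P) = s_G² s_P² β² δ (h_P - h_G)`. -/
def Ex1Stmt : Prop := ∀ (ι : Type) [Fintype ι] (a : ι → V), PI a → ∀ (e : Fin 6 → ℝ), NoLineQ e →
  ∀ O G v w v' w' p : ι, [O, G, v, v', p].Nodup → O ∈ Zq a e → G ∈ Zq a e → v ∈ Zq a e →
  v' ∈ Zq a e → p ∈ Zq a e → w ∉ Zq a e → w' ∉ Zq a e → Tri a G v w → Tri a G v' w' →
  SH a O G v w → SH a O G v' w' → Ext a e O G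

/-- PSC (Pascal with a tangent). Uses BAS PAR. Proof. PAR for `x`, `P0 = g`. Write `g, g', p, p'` in the
form `s • (v0 + h • B + κ h² • x)` with `h = m, n, i, j`. `w` is orthogonal to ... i.e. on the lines
`x p` and `g p'`: up to a factor `w = v0 + i B + κ ((m + j) i - m j) x`; `w'` on `x p'` and `g' p`:
`w' = v0 + j B + κ ((n + i) j - n i) x`; (`w = 0` or `w' = 0` are trivial; `i ≠ j`, `m ≠ j`, ..
because the points are not parallel). `q = cr (tg e x) (cr g g')` is a multiple of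
`B + κ (m + n) x`, and `w' - w = (j - i) (B + κ (m + n) x)`. -/
def PscStmt : Prop := ∀ (e : Fin 6 → ℝ) (x g g' p p' w w' : V), NoLineQ e → quad e x = 0 →
  quad e g = 0 → quad e g' = 0 → quad e p = 0 → quad e p' = 0 → cr x g ≠ 0 → cr x g' ≠ 0 →
  cr x p ≠ 0 → cr x p' ≠ 0 → cr g g' ≠ 0 → cr g p ≠ 0 → cr g p' ≠ 0 → cr g' p ≠ 0 → cr g' p' ≠ 0 →
  cr p p' ≠ 0 → dt x p w = 0 → dt g p' w = 0 → dt x p' w' = 0 → dt g' p w' = 0 →
  dt w w' (cr (tg e x) (cr g g')) = 0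

/-- LNQ (a line has at most two points on a conic without line). Uses LNF. LNF (quad): three pairwise
non-parallel zeros of `quad e` orthogonal to `w ≠ 0` give `quad e v = ip w v * ip m v`, which
vanishes on the plane orthogonal to `w` (spanned by two of the points), against `NoLineQ`. (2) For
three points of the configuration: `w = cr (a i) (a j)`. (3), (4) cubics and conics with a line are
reducible: `NoLine c` fails: `cub c` vanishes on the plane spanned by `u, v`, i.e. orthogonal to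
`w = cr u v`; choose four pairwise non-parallel vectors of it, LNF (cub). -/
def LnqStmt : Prop :=
  (∀ (e : Fin 6 → ℝ) (w p q r : V), NoLineQ e → w ≠ 0 → ip w p = 0 → ip w q = 0 → ip w r = 0 →
    quad e p = 0 → quad e q = 0 → quad e r = 0 → cr p q ≠ 0 → cr q r ≠ 0 → cr r p ≠ 0 → False) ∧
  (∀ (ι : Type) [Fintype ι] (a : ι → V), PI a → ∀ e, NoLineQ e → ∀ i j k : ι, i ≠ j → j ≠ k →
    k ≠ i → k ∈ ln a i j → i ∈ Zq a e → j ∈ Zq a e → k ∈ Zq a e → False) ∧
  (∀ c : Fin 10 → ℝ, c ≠ 0 → ¬ NoLine c → ∃ (w : V) (e : Fin 6 → ℝ), w ≠ 0 ∧ e ≠ 0 ∧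
    ∀ v, cub c v = ip w v * quad e v) ∧
  (∀ e : Fin 6 → ℝ, e ≠ 0 → ¬ NoLineQ e → ∃ w m : V, w ≠ 0 ∧ m ≠ 0 ∧
    ∀ v, quad e v = ip w v * ip m v)

/-- TY1 (run on a line and a conic without line). Uses BAS LNQ. Here
`S = {i | ip w (a i) = 0}`, `K = Zq a e`; every point of the run is in `S ∪ K`. Facts. (F1) If `S`
contains two points of a line `t` of three points (`Tri`) then `S = t` has three points; so if
`S` has at least 4 points it has at most one point on each `Tri` line. (F2) `K` has at most two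
points of any line (LNQ). CASE (a) `O ∈ S`. If `A i ∈ S` or `B i ∈ S` then `S = {O, A i, B i}` (F1);
this happens for at most one `i`, say `i0`; for the others `A i, B i ∈ K` and `O ∉ K` (F2). Choose
`i ≤ N` with `i, i + 1 ≠ i0`: `A i, B (i+1) ∈ K`, so `G1 ∉ K` (F2), `G1 ∈ S`; in the same way
`Gm ∈ S` (`A (i+1), B i`) and `G2 ∈ S` (`A i, B (i+2)`). So `O, Gm, G1, G2 ∈ S`, `S` has 4 points, and
there is no `i0`: all `A i, B i ∈ K` (`i ≤ N + 1`), first alternative. CASE (b) `O ∉ S`, so `O ∈ K`. For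
each `i`: not both `A i, B i ∈ K` (F2), not both in `S` (`S` would be the line `{O, A i, B i}`); so
exactly one of them is in `S`, the other one in `K`, and the one in `S` is not in `K`. So `S` has at
least `N + 2 ≥ 4` points, and at most one on each `Tri` line. `A i ∈ S` implies `B (i+1) ∉ S` (line of
`G1`), so `A (i+1) ∈ S`; `B i ∈ S` implies `A (i+1) ∉ S` (line of `Gm`), so `B (i+1) ∈ S`. So all
`A i ∈ S` and all `B i ∈ K`, or conversely; and `G1, Gm ∉ S`, so `G1, Gm ∈ K`. -/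
def Ty1Stmt : Prop := ∀ (ι : Type) [Fintype ι] (a : ι → V), PI a →
  ∀ (N : ℕ) (O Gm G1 G2 : ι) (A B : ℕ → ι) (w : V) (e : Fin 6 → ℝ), IsRun a N O Gm G1 G2 A B →
  6 ≤ N → w ≠ 0 → NoLineQ e → (∀ i ∈ [O, Gm, G1, G2], ip w (a i) = 0 ∨ i ∈ Zq a e) →
  (∀ i ≤ N + 1, (ip w (a (A i)) = 0 ∨ A i ∈ Zq a e) ∧ (ip w (a (B i)) = 0 ∨ B i ∈ Zq a e)) →
  (O ∉ Zq a e ∧ ∀ i ≤ N + 1, A i ∈ Zq a e ∧ B i ∈ Zq a e) ∨
  (O ∈ Zq a e ∧ G1 ∈ Zq a e ∧ Gm ∈ Zq a e ∧
    ∀ i ≤ N + 1, ip w (a (A i)) = 0 ∧ A i ∉ Zq a e ∧ B i ∈ Zq a e) ∨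
  (O ∈ Zq a e ∧ G1 ∈ Zq a e ∧ Gm ∈ Zq a e ∧
    ∀ i ≤ N + 1, ip w (a (B i)) = 0 ∧ B i ∉ Zq a e ∧ A i ∈ Zq a e)

/-- TY2 (run on three lines). Uses BAS. `S j = {i | ip (w j) (a i) = 0}`, `j : Fin 3`; every point of
the run is in some `S j`. (F1) as in TY1. Let `J = {j | O ∈ S j}`, not empty. Call `i` exceptional if
`S j = {O, A i, B i}` for some `j ∈ J`: at most one `i` for each `j`, so at most three. For `i` not
exceptional `A i, B i ∉ S j` for `j ∈ J` (F1), so `A i ∈ S j`, `B i ∈ S j'` with `j, j' ∉ J`, and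
`A i, B i` are never in the same `S j`, `j ∉ J` (it would be the line `{O, A i, B i}`, which contains
`O`). So there are two indices `j ≠ j'` outside `J`, `J` has one element, there is at most one
exceptional `i`, and for the other `i` one of `A i, B i` is in `S j` only and the other one in `S j'`
only. So `S j, S j'` have at least `N + 1 ≥ 4` points and at most one on each `Tri` line. For `i, i + 1`
not exceptional: `A i ∈ S j` implies `B (i+1) ∉ S j` (line of `G1`), so `B (i+1) ∈ S j'`,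
`A (i+1) ∈ S j`, and `G1 ∉ S j ∪ S j'` (the line `{G1, A i, B (i+1)}` has already a point in each), in
the same way `Gm` (line `{Gm, A (i+1), B i}`), and `G2` if `i, i+1, i+2` are not exceptional. So
`O, Gm, G1, G2` are in the third set `S j0`, which has at least 4 points and is not a `Tri` line: no
exceptional `i`. So all `A i` are in the same `S j` and all `B i` in the same `S j'`. -/
def Ty2Stmt : Prop := ∀ (ι : Type) [Fintype ι] (a : ι → V), PI a →
  ∀ (N : ℕ) (O Gm G1 G2 : ι) (A B : ℕ → ι) (w : Fin 3 → V), IsRun a N O Gm G1 G2 A B →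
  6 ≤ N → (∀ j, w j ≠ 0) → (∀ i ∈ [O, Gm, G1, G2], ∃ j, ip (w j) (a i) = 0) →
  (∀ i ≤ N + 1, (∃ j, ip (w j) (a (A i)) = 0) ∧ ∃ j, ip (w j) (a (B i)) = 0) →
  ∃ j j', ∀ i ≤ N + 1, ip (w j) (a (A i)) = 0 ∧ ip (w j') (a (B i)) = 0

/-- TYP (types of a run). Uses BAS RN2 CUB LNQ TY1 TY2 EX1 PSC. Proof. RN2 gives a run with
`A 0, B 0`, CUB a cubic `c ≠ 0` through its points (`A i, B i`, `i ≤ N`, are `2 N + 2` different
points). If `NoLine c`: `TyI`. Otherwise `cub c v = ip w v * quad e v` (LNQ). If `NoLineQ e`: TY1.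
Its first alternative is `TyA` (`x = O`, `{y, z} = {A 0, B 0}`). Second alternative (all `A i` on the
line, all `B i`, `G1, Gm, O` on the conic): `TyB a k x (B 0) (A 0)`: the line is `ℓ' = ln a (A 0) (A 1)`
(all `A i`, `N + 1 ≥ k` points, are on it), `g = G1`, `g' = Gm`, `Ext` by EX1 (with
`v = B 1, w = A 0`, `v' = B 2, w' = A 1`, `p = B 3` for `G1`; `v = B 0, w = A 1`, `v' = B 1, w' = A 2`,
`p = B 3` for `Gm`; the `SH` statements are in `Run2`); PSC with `x = O`, `g = G1`, `g' = Gm`, `p = B 0`,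
`p' = B 1`, `w = A 0` (lines `O B 0`, `G1 B 1`), `w' = A 1` (lines `O B 1`, `Gm B 0`) gives
`dt (a (A 0)) (a (A 1)) q = 0`; any two points `i, j` of `ℓ'` are combinations of `a (A 0), a (A 1)`, so
`dt (a i) (a j) q = 0`. Third alternative: the same with `A` and `B` exchanged (`g = Gm`, `g' = G1`,
`p = A 0`, `p' = A 1`, `w = B 0` on the lines `O A 0`, `Gm A 1`, `w' = B 1` on `O A 1`, `G1 A 0`): this
is `TyB a k x (A 0) (B 0)`. If `NoLineQ e` fails: `quad e v = ip w' v * ip m v` (LNQ) and TY2: `A 0` is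
on a line with at least `N + 1 ≥ k` points, so is `B 0`. -/
def TypStmt : Prop := ∀ (ι : Type) [Fintype ι] (a : ι → V), PI a → ∀ (N k : ℕ) (x : ι)
  (ℓ : Finset ι), 10 ≤ N → k ≤ N + 1 → 2 * N + 5 < Fintype.card ι → Sees a N x ℓ →
  ∃ y z, ℓ = {x, y, z} ∧ x ≠ y ∧ y ≠ z ∧ z ≠ x ∧
    (TyI a k x y z ∨ TyA a k x y z ∨ TyB a k x y z ∨ TyB a k x z y ∨ (y ∈ UU a k ∧ z ∈ UU a k))

/-- RCI (intersections of rich curves). Uses BAS LNF LNQ ZZZ BZ6. Proof. (2) Two conics without line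
with five common pairwise non-parallel zeros are proportional: let `r` be a vector of the plane of
`p 0, p 1`, not parallel to them (`p 0 + p 1`); `quad e r ≠ 0` (LNQ). With
`t = quad e' r / quad e r` the form `e' - t e` vanishes at `p 0, p 1, r`, so it is zero or
`ip w v * ip m v` with `w = cr (p 0) (p 1)` (LNF); `p 2, p 3, p 4` are not orthogonal to `w` (LNQ), so
they are orthogonal to `m`; if `m ≠ 0` this contradicts LNQ. So `e' = t • e`, `t ≠ 0` as
`quad e' r ≠ 0`. (1) line and line: BAS; line and conic: at most 2 (LNQ); line and cubic: at most 3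
(ZZZ); conic and conic: at most 4 by (2) (proportional forms have the same set); conic and cubic:
at most 6 (BZ6; `e ≠ 0`); cubic and cubic: at most 9 (ZZZ). (3) BZ6 and (4) LNQ, as `10 ≤ k`. -/
def RciStmt : Prop :=
  (∀ (ι : Type) [Fintype ι] (a : ι → V), PI a → ∀ k : ℕ, ∀ C ∈ RC a k, ∀ C' ∈ RC a k, C ≠ C' →
    (C ∩ C').card ≤ 9) ∧
  (∀ (e e' : Fin 6 → ℝ) (p : Fin 5 → V), NoLineQ e → NoLineQ e' →
    (∀ i j, i ≠ j → cr (p i) (p j) ≠ 0) → (∀ i, quad e (p i) = 0 ∧ quad e' (p i) = 0) →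
    ∃ t : ℝ, t ≠ 0 ∧ e' = t • e) ∧
  (∀ (ι : Type) [Fintype ι] (a : ι → V), PI a → ∀ (c : Fin 10 → ℝ) (e : Fin 6 → ℝ), NoLine c →
    NoLineQ e → 10 ≤ (Zq a e).card → Zc a c ≠ Zq a e) ∧
  (∀ (ι : Type) [Fintype ι] (a : ι → V), PI a → ∀ (e : Fin 6 → ℝ) (ℓ : Finset ι), ℓ ∈ lns a →
    NoLineQ e → 3 ≤ (Zq a e).card → ℓ ≠ Zq a e)

/-- FMX (points on two members). Uses nothing. Proof. `K = F.card`. For every subfamily of `r` members
`r k ≤ n + 9 r (r - 1) / 2` (the union has at least the sum of the sizes minus the sum of the pairwise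
intersections). If `K k ≥ 2 n`, let `r ≤ K` be the smallest number with `r k ≥ 2 n`, so
`(r - 1) k < 2 n`; then `2 n ≤ n + 9 r (r - 1) / 2`, i.e. `2 n ≤ 9 r (r - 1)`; multiply by `k²`:
`2 n k² ≤ 9 (r k) ((r - 1) k) ≤ 9 (2 n + k) (2 n) ≤ 54 n²` (`k ≤ n` as `F` is not empty), so
`k² ≤ 27 n`, a contradiction to `100 n ≤ k²` (`n ≥ 1`). So `K k < 2 n`, and the number of points in
two members is at most `9 K (K - 1) / 2`, times `k²` at most `9 (2 n)² / 2 = 18 n²`. -/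
def FmxStmt : Prop := ∀ (ι : Type) [Fintype ι] (F : Finset (Finset ι)) (k : ℕ),
  100 * Fintype.card ι ≤ k * k → (∀ C ∈ F, k ≤ C.card) →
  (∀ C ∈ F, ∀ C' ∈ F, C ≠ C' → (C ∩ C').card ≤ 9) →
  (univ.filter fun i => ∃ C ∈ F, ∃ C' ∈ F, C ≠ C' ∧ i ∈ C ∧ i ∈ C').card * (k * k) ≤
    18 * (Fintype.card ι * Fintype.card ι)

/-- CLS (fully good lines at a point off the rich lines). Uses TYP. Proof. Assume `y, z ∉ EX a k`;
`ℓ` is fully good, so TYP holds at `x` and at `y` (with the pair `{x, z}`). A line of `lns a` with at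
least `k` points, a conic without line or a cubic without line with at least `k` points is in
`RC a k`; a point in two different members is in `EX a k`. (A) Let `TyA a k x y z` hold: `y, z ∈ K`,
`x ∉ K`, `K ∈ RC a k`. Types at `y`: `TyI`: the cubic contains `x`, so it is different from `K`, and it
contains `y`: `y ∈ EX`. `TyA` (`x, z ∈ K'`, `y ∉ K'`): `K' ≠ K` because of `x`, `z ∈ EX`. `TyB a k y x z`
(`y, x ∈ K'`): `K' ≠ K`, `y ∈ EX`. `TyB a k y z x`: `x` is on a rich line, `x ∈ UU`. Last type: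
`x ∈ UU`. (C) Let `y, z ∈ UU a k`: rich lines `λ ∋ y`, `λ' ∋ z`, `x ∉ λ, λ'` as `x ∉ UU`. Types at `y`:
`TyI`: the cubic contains `x` and `y`: `y ∈ EX`. `TyA` (`x, z ∈ K'`): `K' ≠ λ'`, `z ∈ EX`. `TyB a k y x z`:
`x, y ∈ K'`, `K' ≠ λ`: `y ∈ EX`. `TyB a k y z x`: `x ∈ UU`. Last type: `x ∈ UU`. -/
def ClsStmt : Prop := ∀ (ι : Type) [Fintype ι] (a : ι → V), PI a → ∀ (N k : ℕ) (x : ι)
  (ℓ : Finset ι), 10 ≤ N → k ≤ N + 1 → 2 * N + 5 < Fintype.card ι → x ∉ UU a k → ℓ ∈ FG a N →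
  x ∈ ℓ → ∃ y z, ℓ = {x, y, z} ∧ x ≠ y ∧ y ≠ z ∧ z ≠ x ∧
    (y ∈ EX a k ∨ z ∈ EX a k ∨ TyI a k x y z ∨ TyB a k x y z ∨ TyB a k x z y)

/-- UNC (one curve at a typical point). Uses BAS CLS RCI. Proof. Let `Bd` be the set of `x`, of
`Miss a N x`, of `EX a k`, and of the `y ∉ Miss a N x`, `y ≠ x`, such that the third point of
`ln a x y` is in `EX a k` (`y` is determined by this third point). For `y ∉ Bd` the line
`ln a x y ∈ FG a N` is `{x, y, z}` with `y, z ∉ EX`, so CLS gives `TyI a k x y z` or `TyB a k x y z` or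
`TyB a k x z y`, and `z ∉ Bd`. As `x ∉ EX` all rich curves through `x` are the same set. If some
`y0 ∉ Bd` has `TyI` (cubic `c`), then all have `TyI` with the same set `Zc a c` (RCI (3): a conic set
is different), first alternative. Otherwise, if there is some `y0 ∉ Bd`, let `e` be its conic; the
conic `e'` of another `y` has the same set, at least 10 points, so `e' = t • e` (RCI (2)), and
`Ext`, `Cls` for `e'` imply them for `e` (`tg (t • e) x = t • tg e x`, `t² > 0`). So `y ∈ Zq a e`, or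
`y ∉ Zq a e` and `Cls a k e x y`, and exactly one of `y, z` is in `Zq a e`: the complement of `Bd` has
twice as many points as its intersection with `Zq a e`. If every point is in `Bd` take the first
alternative with any `c ≠ 0`. -/
def UncStmt : Prop := ∀ (ι : Type) [Fintype ι] (a : ι → V), PI a → ∀ (N k : ℕ) (x : ι),
  10 ≤ N → 10 ≤ k → k ≤ N + 1 → 2 * N + 5 < Fintype.card ι → x ∉ UU a k → x ∉ EX a k →
  ∃ Bd : Finset ι, Bd.card ≤ (Miss a N x).card + 2 * (EX a k).card + 1 ∧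
    ((∃ c : Fin 10 → ℝ, c ≠ 0 ∧ (∀ y, y ∉ Bd → y ∈ Zc a c) ∧
        (Bd ≠ univ → NoLine c ∧ k ≤ (Zc a c).card ∧ x ∈ Zc a c)) ∨
      ∃ e : Fin 6 → ℝ, NoLineQ e ∧ k ≤ (Zq a e).card ∧ x ∈ Zq a e ∧
        Fintype.card ι ≤ 2 * (Zq a e).card + Bd.card ∧
        ∀ y, y ∉ Bd → y ∈ Zq a e ∨ (y ∉ Zq a e ∧ Cls a k e x y))

/-- UNI (the two neighbours are unique). Uses nothing. Proof. Put
`s P Q = dt (a x) (a P) (a Q) * ip τ (a P) * ip τ (a Q)`, antisymmetric in `P, Q`. Let `ε_g` be the number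
of `Ext a e x g`. For `g ≠ g'`: `0 < ε_g * s g g'` and `0 < ε_g' * s g' g = - ε_g' * s g g'`, so
`ε_g` and `ε_g'` have opposite signs. If `ε_h` has the sign of `ε_g` then `h = g` (otherwise
`0 < ε_h * s h g`, `0 < ε_g * s g h`). As `ε_h, ε_h'` have opposite signs as well, one of them has
the sign of `ε_g`, the other one the sign of `ε_g'`. -/
def UniStmt : Prop := ∀ (ι : Type) [Fintype ι] (a : ι → V) (e : Fin 6 → ℝ) (x g g' h h' : ι),
  g ≠ g' → h ≠ h' → Ext a e x g → Ext a e x g' → Ext a e x h → Ext a e x h' →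
  (g = h ∧ g' = h') ∨ (g = h' ∧ g' = h)

/-- TN3 (three tangents are not concurrent). Uses LNQ. Proof. (1) `ip (tg e v) w = ip (tg e w) v`, so
`ip (tg e q) (x i) = 0` for all `i`. If `tg e q ≠ 0` this contradicts LNQ (1). If `tg e q = 0` then
`2 quad e q = ip (tg e q) q = 0` and `quad e (s • x i + t • q) = 0` for all `s, t`, where `i` is chosen
with `cr (x i) q ≠ 0`. (2) `τ = tg e x`; `ip τ x = 2 quad e x = 0`. If `cr τ (cr g g') = 0` then, as
`cr g g' ≠ 0`, `τ = t • cr g g'` and `ip τ g = 0`; then `quad e (s • x + t • g) = 0` for all `s, t`. -/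
def Tn3Stmt : Prop :=
  (∀ (e : Fin 6 → ℝ) (x : Fin 3 → V) (q : V), NoLineQ e → (∀ i, quad e (x i) = 0) →
    (∀ i j, i ≠ j → cr (x i) (x j) ≠ 0) → (∀ i, ip (tg e (x i)) q = 0) → q = 0) ∧
  (∀ (e : Fin 6 → ℝ) (x g g' : V), NoLineQ e → quad e x = 0 → quad e g = 0 → cr x g ≠ 0 →
    cr g g' ≠ 0 → cr (tg e x) (cr g g') ≠ 0)

/-- CON (the conic case). Uses BAS UNC RCI UNI TN3. Proof. Apply UNC to the three points `x i`, with
bad sets `Bd i` of at most `M = μ + 2 E + 1` points, `E = (EX a k).card`. If for some `i` the first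
alternative holds with `Bd i ≠ univ`: the set `Zc a c` is rich and contains `x i`, so does `Zq a e`,
they are different (RCI (3)) and `x i ∈ EX`, a contradiction. If `Bd i = univ` for some `i` every
`c ≠ 0` is fine. So the second alternative holds with `e_i`; `Zq a e_i = Zq a e` as `x i ∉ EX`,
`e_i = t • e` (RCI (2)), so we may take `e_i = e` (scaling as in UNC). Let `z` be outside of the three
`Bd i` and of `EX a k` and `z ∉ Zq a e`: there are rich lines `ℓ i ∋ z` as in `Cls a k e (x i) z`;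
they are the same line `ℓ` as `z ∉ EX`. By UNI the vector `Q i = cr (tg e (x i)) (cr g_i g_i')` does
not depend on `z`, up to sign; it is not zero (TN3 (2)). The `Q i` are not all parallel: otherwise
`q = Q 0` has `ip (tg e (x i)) q = 0` for all `i` (`ip τ (cr τ u) = 0`), against TN3 (1). Say
`cr (Q i) (Q j) ≠ 0`. Let `z' ≠ z` be a point of `ℓ`: `dt (a z) (a z') (Q i) = 0 = dt (a z) (a z') (Q j)`,
so `Q i, Q j` are in the plane spanned by `a z, a z'`, hence span it, and `dt (Q i) (Q j) (a z) = 0`.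
So the cubic form `c` with `cub c v = ip (cr (Q i) (Q j)) v * quad e v` (LNF (6); `c ≠ 0`) vanishes at
all points outside of the three `Bd i` and of `EX a k`. -/
def ConStmt : Prop := ∀ (ι : Type) [Fintype ι] (a : ι → V), PI a → ∀ (N k μ : ℕ)
  (e : Fin 6 → ℝ) (x : Fin 3 → ι), 10 ≤ N → 10 ≤ k → k ≤ N + 1 → 2 * N + 5 < Fintype.card ι →
  NoLineQ e → k ≤ (Zq a e).card → Function.Injective x →
  (∀ i, x i ∈ Zq a e ∧ x i ∉ UU a k ∧ x i ∉ EX a k ∧ (Miss a N (x i)).card ≤ μ) →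
  ∃ c : Fin 10 → ℝ, c ≠ 0 ∧
    (univ.filter fun i => cub c (a i) ≠ 0).card ≤ 3 * (μ + 2 * (EX a k).card + 1) + (EX a k).card

/-- STR (structure: almost all points on one cubic). Uses BAS MSB UNC CON RCI. `E = (EX a k).card`,
`S = 330 * N * T2 a`. Proof. Among the more than `S / μ + E` points outside of `UU a k` there is one
outside of `EX a k` with `(Miss a N x).card ≤ μ` (MSB: otherwise the sum over them exceeds `S`). UNC at
`x`: in the first alternative the points off `c` are in `Bd`, at most `μ + 2 E + 1`. In the second one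
`2 (Zq a e).card ≥ n - (μ + 2 E + 1)`. A point of `Zq a e` in `UU a k` is in `EX a k` (RCI (4)). At most
`S / μ` points outside of `UU a k` have `(Miss ..).card > μ` (`μ ≥ 1`). By the last hypothesis
(`2 * S + μ (μ + 4 E + 7) ≤ μ n`) at least three points of `Zq a e` are outside of `UU a k` and of
`EX a k` and have `(Miss ..).card ≤ μ`: CON. -/
def StrStmt : Prop := ∀ (ι : Type) [Fintype ι] (a : ι → V), PI a → Spn a → ∀ N k μ E : ℕ,
  10 ≤ N → 10 ≤ k → k ≤ N + 1 → 2 * N + 5 < Fintype.card ι → 1 ≤ μ → (EX a k).card ≤ E →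
  330 * N * T2 a + μ * E < μ * (univ \ UU a k).card →
  2 * (330 * N * T2 a) + μ * (μ + 4 * E + 7) ≤ μ * Fintype.card ι →
  ∃ c : Fin 10 → ℝ, c ≠ 0 ∧
    (univ.filter fun i => cub c (a i) ≠ 0).card ≤ 3 * μ + 7 * E + 3

/-- BRA (translation of OmissibleOnLines). Uses nothing. `T` is the number of the lines of
`OM.Spanned X` with exactly two points of `X`. Proof. For `p ≠ q` in `X` the points of `X` on the line
through `p, q` are those of `ln (fam X) p q` (`dt (hp p) (hp q) (hp r) = 0` iff `r` is on the line: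
compare `Pool/Agent/Helper5_GTO`, `Cld`); `cr (hp p) (hp q) ≠ 0` for `p ≠ q`; `Spn` because `X` is not
collinear; `T2 = T` (the map from `Spanned X` to `lns`). `OM.Omissible X p` implies `Om (fam X) p`
(`OM.om_of_omissible` in `Helper43_OM/Pub.lean`), and the converse is easy: if each line through `p`
contains two further points then removing `p` changes no spanned line. The two inequalities are
`Pool.Agent.OM.on_rich` (multiply by `3 k²`; `k ≥ 2`) and `OmissibleNearCubic.result` with the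
polynomial `cub c (x, y, 1)` (not zero as `c ≠ 0`, total degree at most 3). -/
def BraStmt : Prop := ∀ (X : Finset (ℝ × ℝ)), ¬ Collinear ℝ (X : Set (ℝ × ℝ)) →
  PI (fam X) ∧ Spn (fam X) ∧ Fintype.card {p // p ∈ X} = X.card ∧
  T2 (fam X) = {L ∈ OM.Spanned (X : Set (ℝ × ℝ)) | ((X : Set (ℝ × ℝ)) ∩ L).ncard = 2}.ncard ∧
  {x | OM.Omissible (X : Set (ℝ × ℝ)) x}.ncard = (univ.filter fun p => Om (fam X) p).card ∧
  (∀ k : ℕ, 2 ≤ k → 4 * X.card ≤ k ^ 2 →
    3 * (univ.filter fun p => Om (fam X) p ∧ p ∈ UU (fam X) k).card * k ^ 2 ≤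
      X.card * k ^ 2 + 9 * X.card ^ 2) ∧
  (∀ c : Fin 10 → ℝ, c ≠ 0 → 3 * (univ.filter fun p => Om (fam X) p).card ≤
    X.card + 33 * (univ.filter fun p => cub c (fam X p) ≠ 0).card + 60)

/-- NUM (the numbers). Uses nothing. `n` points, `m` omissible ones, `D = 3 m - n`, `T` ordinary lines.
Proof. Let `k = Nat.sqrt (72900 * n * n / D) + 1`, so `72900 n² < k² D` (1) and, as `D ≤ 2 n`,
`k² D ≤ 4 * 72900 n²` (2) (`(k-1)² D ≤ 72900 n²` and `k ≤ 2 (k - 1)`), `N = k`, `E` as given,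
`μ = D / 4000` (floor). `D³ > 2.25 * 10^21` because `D^5 > 10^21 n² T²`, `2 n ≥ D`, `T ≥ 3`; so
`D > 10^7`. (a) `10 ≤ k`, `2 k + 5 < n`: `(2 k)² ≤ 16 * 72900 n² / D ≤ n² / 8` by (2). `100 n ≤ k²` by (1)
and `D ≤ 2 n`. (b) `E k² ≤ 18 n²` gives `E ≤ D / 4050` by (1). (c) `3 m_U k² ≤ n k² + 9 n²` gives
`3 m_U ≤ n + D / 8100` and `w ≥ m - m_U`, so `w ≥ D / 4`. (d) `k² T² ≤ 4 * 72900 n² T² / D ≤ 291600 D⁴ / 10^21`
by (2) and the assumption, so `k T ≤ 1.71 * 10^(-8) D²` and `S = 330 k T ≤ D² / 170000`. (e) So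
`S + μ E < μ w`: `μ ≥ D / 4001`, `μ (w - E) ≥ (D / 4001) (D / 5) > D² / 20100 > S`; and
`2 S + μ (μ + 4 E + 7) ≤ μ n`: `2 S ≤ D² / 85000 ≤ μ D / 20`, `μ + 4 E + 7 ≤ D / 500`, `D ≤ 2 n`. (f) The
conclusion `off ≤ 3 μ + 7 E + 3 ≤ D / 390` contradicts `D ≤ 33 off + 60`. -/
def NumStmt : Prop := ∀ n m T D : ℕ, D = 3 * m - n → 0 < D → m ≤ n → 3 ≤ T →
  10 ^ 21 * (n ^ 2 * T ^ 2) < D ^ 5 →
  ∃ k : ℕ, 10 ≤ k ∧ 2 * k + 5 < n ∧ 100 * n ≤ k * k ∧ ∀ E mU w : ℕ,
    E * (k * k) ≤ 18 * (n * n) → 3 * mU * k ^ 2 ≤ n * k ^ 2 + 9 * n ^ 2 → m ≤ mU + w →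
    ∃ μ : ℕ, 1 ≤ μ ∧ 330 * k * T + μ * E < μ * w ∧
      2 * (330 * k * T) + μ * (μ + 4 * E + 7) ≤ μ * n ∧
      ∀ off : ℕ, off ≤ 3 * μ + 7 * E + 3 → n + 33 * off + 60 < 3 * m

/-- FIN (the theorem). Uses BRA NUM STR RCI FMX CNT. Proof. Suppose `10^21 n² T² < D^5`; NUM gives
`k`; FMX for `F = RC a k` (RCI (1)) bounds `E = (EX a k).card`; BRA bounds `mU`;
`m ≤ mU + (univ \ UU a k).card`; NUM gives `μ`, STR (`N = k`) the cubic, BRA (last part) the
contradiction. `3 ≤ T` by CNT. -/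
def FinStmt : Prop := ∀ (X : Set (ℝ × ℝ)), X.Finite → ¬ Collinear ℝ X →
  (3 * {x | OM.Omissible X x}.ncard - X.ncard) ^ 5 ≤
    10 ^ 21 * (X.ncard ^ 2 * {L ∈ OM.Spanned X | (X ∩ L).ncard = 2}.ncard ^ 2)

/-- COR (bound for the number of points which are not omissible). Uses BRA FIN. Proof. `n`, `m`, `b = n - m`,
`T`. An ordinary line has no omissible point, so `2 T ≤ b (b - 1) ≤ b²` (each ordinary line is
determined by its two points). FIN: `(2 n - 3 b)^5 ≤ 10^21 n² T²`. If `3 b ≤ n` then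
`n^5 ≤ (2 n - 3 b)^5 ≤ 10^21 n² b⁴ / 4`. If `3 b > n` then `n³ ≤ 27 b³ ≤ 27 b⁴`. -/
def CorStmt : Prop := ∀ (X : Set (ℝ × ℝ)), X.Finite → ¬ Collinear ℝ X →
  X.ncard ^ 3 ≤ 10 ^ 21 * {x ∈ X | ¬ OM.Omissible X x}.ncard ^ 4

end Pool.Agent.OMF
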